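import Pool.Agent.Helper57.Cube2

/-!
Further properties of the resolution of the cube: first countable, separable, not metrizable,
aposyndetic at no point, and no finite set weakly cuts it.
-/

set_option autoImplicit false

open Set Topology Filter Real

namespace Pool.Agent.Helper57.Res

lemma nhds_eq_M (m : M F) :
    𝓝 m = comap (r F) (𝓝 (r F m)) ⊓ comap (g F (r F m)) (𝓝 (g F (r F m) m)) := by
  apply le_antisymm
  · exact le_inf ((continuous_r F).tendsto m).le_comap ((continuous_g F _).tendsto m).le_comap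
  · intro V hV
    obtain ⟨O, hO, W, hW, h⟩ := nhds_M F continuousAt_F m hV
    rw [mem_inf_iff_superset]
    exact ⟨(r F) ⁻¹' O, preimage_mem_comap hO, (g F (r F m)) ⁻¹' W, preimage_mem_comap hW,
      fun m' hm' => h m' hm'.1 hm'.2⟩

lemma firstCountable_M : FirstCountableTopology (M F) :=
  ⟨fun m => by
    rw [nhds_eq_M]
    infer_instance⟩

/-- every nonempty open set contains all fibres over a nonempty open set -/
lemma tiny (m : M F) {V : Set (M F)} (hV : V ∈ 𝓝 m) :
    ∃ O : Set Cube, IsOpen O ∧ O.Nonempty ∧ (r F) ⁻¹' O ⊆ V := by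
  obtain ⟨O, hO, W, hW, h⟩ := nhds_M F continuousAt_F m hV
  obtain ⟨L, hLc, hxL, hLp, hxcl, hLf⟩ := H2 (r F m) (g F (r F m) m)
  rw [mem_closure_iff_nhds] at hxcl
  obtain ⟨b, hbO, hbL⟩ := hxcl (interior O) (interior_mem_nhds.2 hO)
  have hbne : b ≠ r F m := hbL.2
  have hb1 : ∀ᶠ b' in 𝓝 b, b' ∈ interior O ∧ b' ≠ r F m ∧ F (r F m) b' ∈ W := by
    have e1 : ∀ᶠ b' in 𝓝 b, b' ∈ interior O := isOpen_interior.mem_nhds hbO
    have e2 : ∀ᶠ b' in 𝓝 b, b' ≠ r F m := isOpen_ne.mem_nhds hbne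
    have e3 : ∀ᶠ b' in 𝓝 b, F (r F m) b' ∈ W :=
      (continuousAt_F _ _ hbne).eventually (by rw [hLf b hbL]; exact hW)
    filter_upwards [e1, e2, e3] with b' h1 h2 h3 using ⟨h1, h2, h3⟩
  obtain ⟨O', hO'sub, hO'open, hbO'⟩ := mem_nhds_iff.1 hb1
  refine ⟨O', hO'open, ⟨b, hbO'⟩, fun m' hm' => ?_⟩
  obtain ⟨h1, h2, h3⟩ := hO'sub hm'
  apply h m' (interior_subset h1)
  rw [g_eq F h2]
  exact h3

lemma separable_M : TopologicalSpace.SeparableSpace (M F) := by
  obtain ⟨D, hDc, hDd⟩ := TopologicalSpace.exists_countable_dense Cube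
  refine ⟨⟨(fun b => e F b 1) '' D, hDc.image _, ?_⟩⟩
  rw [dense_iff_inter_open]
  rintro V hV ⟨m, hm⟩
  obtain ⟨O, hO, hne, hOV⟩ := tiny m (hV.mem_nhds hm)
  obtain ⟨d, hdO, hdD⟩ := hDd.inter_open_nonempty O hO hne
  exact ⟨e F d 1, hOV hdO, d, hdD, rfl⟩

/-- the element `-1` of the circle -/
noncomputable def ng : Circle := Circle.exp π

lemma ng_mul_ng : ng * ng = 1 := by
  rw [ng, ← Circle.exp_add, ← two_mul, Circle.exp_two_pi]

lemma ng_ne : ng ≠ 1 := by
  intro h
  have h1 := congrArg (fun z : Circle => (z : ℂ)) h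
  simp only [ng, Circle.coe_exp, Circle.coe_one] at h1
  rw [Complex.exp_pi_mul_I] at h1
  norm_num at h1

lemma ng_mul_ne (y : Circle) : ng * y ≠ y := by
  intro h
  apply ng_ne
  exact mul_eq_right.1 h

lemma e_inj (x : Cube) {y y' : Circle} (h : e F x y = e F x y') : y = y' := by
  rw [← g_e F x y, h, g_e]

lemma not_metrizable_M : ¬ TopologicalSpace.MetrizableSpace (M F) := by
  intro hmet
  haveI := compactSpace_M F continuousAt_F
  letI := TopologicalSpace.metrizableSpaceMetric (M F)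
  let A : ℕ → Set Cube := fun n =>
    {x | ∃ m m' : M F, r F m = x ∧ r F m' = x ∧ 1 / ((n : ℝ) + 1) ≤ dist m m'}
  have hAc : ∀ n, IsClosed (A n) := by
    intro n
    have hA : A n = (fun z : M F × M F => r F z.1) ''
        ({z : M F × M F | r F z.1 = r F z.2} ∩ {z | 1 / ((n : ℝ) + 1) ≤ dist z.1 z.2}) := by
      ext x
      constructor
      · rintro ⟨m, m', h1, h2, h3⟩
        exact ⟨(m, m'), ⟨h1.trans h2.symm, h3⟩, h1⟩
      · rintro ⟨⟨m, m'⟩, ⟨h1, h2⟩, h3⟩
        exact ⟨m, m', h3, (show r F m = r F m' from h1) ▸ h3, h2⟩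
    rw [hA]
    apply IsCompact.isClosed
    apply IsCompact.image
    · apply IsClosed.isCompact
      apply IsClosed.inter
      · exact isClosed_eq ((continuous_r F).comp continuous_fst)
          ((continuous_r F).comp continuous_snd)
      · exact isClosed_le continuous_const (continuous_fst.dist continuous_snd)
    · exact (continuous_r F).comp continuous_fst
  have hAU : ⋃ n, A n = univ := by
    rw [eq_univ_iff_forall]
    intro x
    have hne : e F x 1 ≠ e F x ng := fun h => ng_ne (e_inj x h).symm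
    have hpos : 0 < dist (e F x 1) (e F x ng) := dist_pos.2 hne
    obtain ⟨n, hn⟩ := exists_nat_one_div_lt hpos
    exact mem_iUnion.2 ⟨n, e F x 1, e F x ng, rfl, rfl, hn.le⟩
  obtain ⟨n, x, hx⟩ := nonempty_interior_of_iUnion_of_closed hAc hAU
  have hn0 : (0 : ℝ) < 1 / ((n : ℝ) + 1) / 2 := by positivity
  have hV : Metric.ball (e F x 1) (1 / ((n : ℝ) + 1) / 2) ∩ (r F) ⁻¹' (interior (A n)) ∈
      𝓝 (e F x 1) := by
    apply inter_mem (Metric.ball_mem_nhds _ hn0)
    exact (continuous_r F).continuousAt.preimage_mem_nhds (isOpen_interior.mem_nhds hx)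
  obtain ⟨O, hO, ⟨b, hb⟩, hOV⟩ := tiny (e F x 1) hV
  have hbA : b ∈ A n := interior_subset (hOV (show e F b 1 ∈ (r F) ⁻¹' O from hb)).2
  obtain ⟨m, m', h1, h2, h3⟩ := hbA
  have d1 : dist m (e F x 1) < 1 / ((n : ℝ) + 1) / 2 :=
    (hOV (show m ∈ (r F) ⁻¹' O by rw [mem_preimage, h1]; exact hb)).1
  have d2 : dist m' (e F x 1) < 1 / ((n : ℝ) + 1) / 2 :=
    (hOV (show m' ∈ (r F) ⁻¹' O by rw [mem_preimage, h2]; exact hb)).1
  have d3 := dist_triangle_right m m' (e F x 1)
  linarith

/-- one island -/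
lemma H4 (x : Cube) (y : Circle) {W : Set Circle} (hW : W ∈ 𝓝 y) {O : Set Cube} (hO : O ∈ 𝓝 x) :
    ∃ (D D' : Set Cube) (c : Cube), IsClosed D ∧ IsOpen D' ∧ D' ⊆ D ∧
      c ∈ D ∧ c ∈ O ∧ c ≠ x ∧ x ∉ D ∧ ng * F x c ∈ W ∧
      ∀ b ∈ D \ D', b ∈ O ∧ b ≠ x ∧ F x b ∈ W := by
  obtain ⟨s, hs0, hs1, hsy⟩ := exists_phase y
  have hexp : Continuous (fun t : ℝ => Circle.exp (2 * π * t)) := by fun_prop
  have hWb : W ∈ 𝓝 (Circle.exp (2 * π * s)) := by
    rw [hsy]
    exact hW
  obtain ⟨δ, hδ, hδW⟩ := Metric.mem_nhds_iff.mp (hexp.continuousAt.preimage_mem_nhds hWb)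
  obtain ⟨ε, hε, hεO⟩ := Metric.mem_nhds_iff.mp hO
  obtain ⟨N, hN⟩ := exists_nat_gt (max (2 / δ) (1 / ε))
  have hNδ : 2 / δ < N := (le_max_left _ _).trans_lt hN
  have hNε : 1 / ε < N := (le_max_right _ _).trans_lt hN
  set n : ℕ := N + 2 with hn
  set j : ℕ := ⌊s * (n : ℝ)⌋₊ with hj
  have hn2 : 2 ≤ n := by omega
  have hn0 : (0 : ℝ) < n := by exact_mod_cast (by omega : 0 < n)
  have hnN : (N : ℝ) ≤ n := by exact_mod_cast (by omega : N ≤ n)
  have hj1 : (j : ℝ) ≤ s * n := Nat.floor_le (mul_nonneg hs0 hn0.le)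
  have hj2 : s * n < j + 1 := Nat.lt_floor_add_one _
  have hjn : j ≤ n := by
    have h1 : (j : ℝ) ≤ n := hj1.trans (by nlinarith)
    exact_mod_cast h1
  have hphase : ∀ b ∈ Dset x n j,
      Circle.exp (2 * π * (dist x.2.1 b.2.1 / dist x b)) ∈ W := by
    intro b hb
    have h1 := Dset_phase (s := s) (by omega) hs1 hj1 hj2 hb
    apply hδW
    rw [Metric.mem_ball, Real.dist_eq]
    refine h1.trans_lt ?_
    rw [div_lt_iff₀ hn0]
    rw [div_lt_iff₀ hδ] at hNδ
    nlinarith
  have hnear : ∀ b ∈ Dset x n j, b ∈ O := by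
    intro b hb
    have hpos := Dset_dist_pos hb
    apply hεO
    rw [Metric.mem_ball, dist_comm]
    have h2 := hb.2.1
    rw [div_lt_iff₀ hε] at hNε
    by_contra hcon
    rw [not_lt] at hcon
    nlinarith
  have hne : ∀ b ∈ Dset x n j, b ≠ x := by
    intro b hb h
    have := Dset_dist_pos hb
    rw [h, dist_self] at this
    exact lt_irrefl _ this
  have hc := ctr_mem x hn2 hjn
  refine ⟨Dset x n j, Dset' x n j, ctr x n j, isClosed_Dset _ _ _, isOpen_Dset' _ _ _,
    Dset'_subset _ _ _, hc, hnear _ hc, hne _ hc, fun h => hne x h rfl, ?_, ?_⟩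
  · rw [F_ctr x hn2 hjn, Circle.exp_add, mul_comm (Circle.exp _) (Circle.exp π)]
    change ng * (ng * _) ∈ W
    rw [← mul_assoc, ng_mul_ng, one_mul]
    exact hphase _ hc
  · rintro b ⟨hb, hb'⟩
    refine ⟨hnear b hb, hne b hb, ?_⟩
    rw [F_boundary hb hb']
    exact hphase b hb

/-- A connected closed neighbourhood of a point of a fibre contains the antipode in the fibre. -/
lemma antipode_mem (x : Cube) (y : Circle) (H : Set (M F)) (hH : IsClosed H)
    (hHc : IsConnected H) (hn : H ∈ 𝓝 (e F x y)) : e F x (ng * y) ∈ H := by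
  by_contra hq
  have hqn : Hᶜ ∈ 𝓝 (e F x (ng * y)) := hH.isOpen_compl.mem_nhds hq
  obtain ⟨O1, hO1, W1, hW1, h1⟩ := nhds_M F continuousAt_F _ hn
  obtain ⟨O2, hO2, W2, hW2, h2⟩ := nhds_M F continuousAt_F _ hqn
  have r1 : r F (e F x y) = x := rfl
  have r2 : r F (e F x (ng * y)) = x := rfl
  rw [r1] at hO1 hW1 h1
  rw [r2] at hO2 hW2 h2
  rw [g_e] at hW1 hW2
  have hW3 : (fun z : Circle => ng * z) ⁻¹' W1 ∈ 𝓝 (ng * y) := by
    have hc : Continuous (fun z : Circle => ng * z) := continuous_const.mul continuous_id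
    apply hc.continuousAt.preimage_mem_nhds
    rw [← mul_assoc, ng_mul_ng, one_mul]
    exact hW1
  obtain ⟨D, D', c, hD, hD', hDD, hcD, hcO, hcx, hxD, hcW, hb⟩ :=
    H4 x (ng * y) (inter_mem hW2 hW3) (inter_mem hO1 hO2)
  have hcH : ∀ m : M F, r F m = c → m ∈ H := by
    intro m hm
    apply h1
    · rw [hm]; exact hcO.1
    · rw [g_eq F (by rw [hm]; exact hcx), hm]
      have := hcW.2
      rw [mem_preimage, ← mul_assoc, ng_mul_ng, one_mul] at this
      exact this
  have hbH : ∀ m : M F, r F m ∈ D \ D' → m ∉ H := by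
    intro m hm
    obtain ⟨k1, k2, k3⟩ := hb _ hm
    apply h2
    · exact k1.2
    · rw [g_eq F k2]
      exact k3.1
  have hcD' : c ∈ D' := by
    by_contra hcon
    exact hbH (e F c y) ⟨hcD, hcon⟩ (hcH _ rfl)
  obtain ⟨m, hm, hma, hmb⟩ := hHc.isPreconnected ((r F) ⁻¹' D') ((r F) ⁻¹' Dᶜ)
    (hD'.preimage (continuous_r F)) (hD.isOpen_compl.preimage (continuous_r F))
    (by
      intro m' hm'
      by_cases h : r F m' ∈ D
      · left
        by_contra hcon
        exact hbH m' ⟨h, hcon⟩ hm'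
      · right
        exact h)
    ⟨e F c y, hcH _ rfl, hcD'⟩ ⟨e F x y, mem_of_mem_nhds hn, hxD⟩
  exact hmb (hDD hma)

/-- small asymptotic segments -/
lemma H2s (x : Cube) (y : Circle) {O : Set Cube} (hO : O ∈ 𝓝 x) : ∃ L : Set Cube, IsClosed L ∧
    L ⊆ O ∧ x ∈ L ∧ IsPreconnected (L \ {x}) ∧ x ∈ closure (L \ {x}) ∧
    ∀ b ∈ L \ {x}, F x b = y := by
  obtain ⟨ε, hε, hεO⟩ := Metric.mem_nhds_iff.mp hO
  set η : ℝ := min (1 / 2) (ε / 2) with hη
  have hη0 : 0 < η := lt_min (by norm_num) (by linarith)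
  have hη1 : η ≤ 1 / 2 := min_le_left _ _
  have hη2 : η < ε := (min_le_right _ _).trans_lt (by linarith)
  obtain ⟨s, hs0, hs1, hsy⟩ := exists_phase y
  let γ : ℝ → Cube := fun t => pt x t (s * t) 0
  have hγc : Continuous γ := by
    refine Continuous.prodMk (continuous_mv _) (Continuous.prodMk ?_ continuous_const)
    exact (continuous_mv _).comp (continuous_const.mul continuous_id)
  have hγ0 : γ 0 = x := by
    simp only [γ, pt, mul_zero, mv_zero]
  have hst : ∀ t : ℝ, 0 ≤ t → s * t ≤ t := fun t ht => by nlinarith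
  have hd : ∀ t : ℝ, 0 ≤ t → t ≤ η → dist x (γ t) = t := by
    intro t h0 h1
    have := dist_pt x (t1 := t) (t2 := s * t) (t3 := 0) h0 (h1.trans hη1) (by positivity)
      ((hst t h0).trans (h1.trans hη1)) le_rfl (by norm_num)
    simp only [γ]
    rw [this, max_eq_left]
    exact max_le (hst t h0) h0
  have hne : ∀ t : ℝ, 0 < t → t ≤ η → γ t ≠ x := by
    intro t h0 h1 h
    have := hd t h0.le h1
    rw [h, dist_self] at this
    exact h0.ne this
  have hL : γ '' Icc 0 η \ {x} = γ '' Ioc 0 η := by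
    ext b
    constructor
    · rintro ⟨⟨t, ht, rfl⟩, hb⟩
      refine ⟨t, ⟨?_, ht.2⟩, rfl⟩
      rcases ht.1.eq_or_lt with h | h
      · exfalso
        apply hb
        rw [← h, hγ0]
        rfl
      · exact h
    · rintro ⟨t, ht, rfl⟩
      exact ⟨⟨t, ⟨ht.1.le, ht.2⟩, rfl⟩, hne t ht.1 ht.2⟩
  refine ⟨γ '' Icc 0 η, (isCompact_Icc.image hγc).isClosed, ?_, ⟨0, ⟨le_rfl, hη0.le⟩, hγ0⟩,
    ?_, ?_, ?_⟩
  · rintro _ ⟨t, ht, rfl⟩
    apply hεO
    rw [Metric.mem_ball, dist_comm, hd t ht.1 ht.2]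
    exact ht.2.trans_lt hη2
  · rw [hL]
    exact isPreconnected_Ioc.image γ hγc.continuousOn
  · rw [hL]
    have h0 : (0 : ℝ) ∈ closure (Ioc (0 : ℝ) η) := by
      rw [closure_Ioc hη0.ne]
      exact ⟨le_rfl, hη0.le⟩
    have := image_closure_subset_closure_image hγc (mem_image_of_mem γ h0)
    rwa [hγ0] at this
  · rw [hL]
    rintro _ ⟨t, ht, rfl⟩
    have hdt := hd t ht.1.le ht.2
    have hv : dist x.2.1 (γ t).2.1 = s * t :=
      dist_mv _ _ (by have := ht.1.le; positivity) ((hst t ht.1.le).trans (ht.2.trans hη1))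
    have hw : dist x.2.2 (γ t).2.2 = 0 := dist_mv _ _ le_rfl (by norm_num)
    rw [F, ph, hdt, hv, hw]
    have ht0 : t ≠ 0 := ht.1.ne'
    rw [show 2 * π * (s * t / t) + π * (0 / t * (sin (π / t) ^ 2 *
      sin (π * (s * t / t ^ 2)) ^ 2)) = 2 * π * s by
        rw [zero_div, zero_mul, mul_zero, add_zero, mul_div_assoc, div_self ht0, mul_one]]
    exact hsy

/-- convex combination in the unit interval -/
def cc (a b l : I) : I :=
  ⟨(1 - (l : ℝ)) * a + (l : ℝ) * b,
    (convex_Icc (0 : ℝ) 1) a.2 b.2 (by linarith [l.2.2]) l.2.1 (by ring)⟩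

lemma continuous_cc (a b : I) : Continuous (cc a b) := by
  unfold cc
  fun_prop

lemma cc_zero (a b : I) : cc a b 0 = a := by
  apply Subtype.ext
  simp [cc]

lemma cc_one (a b : I) : cc a b 1 = b := by
  apply Subtype.ext
  simp [cc]

/-- Two points of the cube outside a countable set are in a subcontinuum which misses the set. -/
lemma cube_conn (A : Set Cube) (hA : A.Countable) (p q : Cube) (hp : p ∉ A) (hq : q ∉ A) :
    ∃ K : Set Cube, IsClosed K ∧ IsPreconnected K ∧ p ∈ K ∧ q ∈ K ∧ Disjoint K A := by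
  have hunc : ∀ B : Set I, B.Countable → ∃ c : I, c ∉ B := by
    intro B hB
    by_contra hcon
    push_neg at hcon
    have h1 : (univ : Set I).Countable := hB.mono (fun x _ => hcon x)
    have h2 : (Icc (0 : ℝ) 1).Countable := by
      have := h1.image (Subtype.val : I → ℝ)
      rwa [image_univ, Subtype.range_coe] at this
    exact (Cardinal.Real.Icc_countable_iff.1 h2).not_gt one_pos
  obtain ⟨s, hs⟩ := hunc ((fun a : Cube => a.1) '' A ∪ {p.1, q.1})
    ((hA.image _).union (by simp))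
  have hsA : ∀ a ∈ A, a.1 ≠ s := fun a ha h => hs (Or.inl ⟨a, ha, h⟩)
  have hsp : s ≠ p.1 := fun h => hs (Or.inr (by simp [h]))
  have hsq : s ≠ q.1 := fun h => hs (Or.inr (by simp [h]))
  -- slab
  set Z : Set Cube := {s} ×ˢ (univ : Set (I × I)) with hZ
  have hZc : IsClosed Z := isClosed_singleton.prod isClosed_univ
  have hZp : IsPreconnected Z := isPreconnected_singleton.prod isPreconnected_univ
  have hZA : ∀ a ∈ A, a ∉ Z := fun a ha h => hsA a ha h.1
  have step : ∀ p : Cube, p ∉ A → s ≠ p.1 → ∃ K : Set Cube, IsClosed K ∧ IsPreconnected K ∧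
      p ∈ K ∧ (∃ z ∈ Z, z ∈ K) ∧ Disjoint K A := by
    intro p hp hsp
    let σ : I → I → Cube := fun c l => (cc p.1 s l, p.2.1, cc p.2.2 c l)
    have hσ : ∀ c, Continuous (σ c) := fun c =>
      (continuous_cc _ _).prodMk (continuous_const.prodMk (continuous_cc _ _))
    -- each point of `A` is on at most one of the segments
    have hex : ∃ c : I, ∀ l, σ c l ∉ A := by
      by_contra hcon
      push_neg at hcon
      choose l hl using hcon
      have hinj : Function.Injective (fun c => σ c (l c)) := by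
        intro c c' hcc
        have h1 : cc p.1 s (l c) = cc p.1 s (l c') := congrArg (fun z : Cube => z.1) hcc
        have h2 : cc p.2.2 c (l c) = cc p.2.2 c' (l c') := congrArg (fun z : Cube => z.2.2) hcc
        have h1' := congrArg (fun z : I => (z : ℝ)) h1
        have h2' := congrArg (fun z : I => (z : ℝ)) h2
        simp only [cc] at h1' h2'
        have hsp' : ((s : ℝ) - p.1) ≠ 0 := sub_ne_zero.2 (fun h => hsp (Subtype.ext h))
        have h3 : (l c : ℝ) = l c' := by
          have : ((l c : ℝ) - l c') * ((s : ℝ) - p.1) = 0 := by linarith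
          rcases mul_eq_zero.1 this with h | h
          · linarith
          · exact absurd h hsp'
        have h4 : (l c : ℝ) ≠ 0 := by
          intro h0
          have h5 : l c = 0 := Subtype.ext h0
          apply hp
          have := hl c
          rw [h5] at this
          have h6 : σ c 0 = p := by
            simp only [σ, cc_zero]
          rwa [h6] at this
        rw [← h3] at h2'
        have h5 : (l c : ℝ) * ((c : ℝ) - c') = 0 := by linarith
        rcases mul_eq_zero.1 h5 with h | h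
        · exact absurd h h4
        · exact Subtype.ext (sub_eq_zero.1 h)
      have hcount : (univ : Set I).Countable := by
        have : MapsTo (fun c => σ c (l c)) univ A := fun c _ => hl c
        exact this.countable_of_injOn hinj.injOn hA
      obtain ⟨c, hc⟩ := hunc univ hcount
      exact hc trivial
    obtain ⟨c, hc⟩ := hex
    refine ⟨range (σ c), (isCompact_range (hσ c)).isClosed, isPreconnected_range (hσ c),
      ⟨0, ?_⟩, ⟨σ c 1, ?_, 1, rfl⟩, ?_⟩
    · simp only [σ, cc_zero]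
    · refine ⟨?_, trivial⟩
      simp only [σ, cc_one]
      rfl
    · rw [Set.disjoint_left]
      rintro _ ⟨l, rfl⟩
      exact hc l
  obtain ⟨K1, h1, h2, h3, ⟨z1, hz1, hz1'⟩, h5⟩ := step p hp hsp
  obtain ⟨K2, k1, k2, k3, ⟨z2, hz2, hz2'⟩, k5⟩ := step q hq hsq
  refine ⟨K1 ∪ Z ∪ K2, (h1.union hZc).union k1, ?_, Or.inl (Or.inl h3), Or.inr k3, ?_⟩
  · exact IsPreconnected.union z2 (Or.inr hz2) hz2' (IsPreconnected.union z1 hz1' hz1 h2 hZp) k2
  · rw [Set.disjoint_left] at h5 k5 ⊢
    rintro a ((ha | ha) | ha)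
    · exact h5 ha
    · exact fun haA => hZA a haA ha
    · exact k5 ha

/-- No finite set weakly cuts the resolution. -/
lemma no_finite_cut (S : Set (M F)) (hS : S.Finite) (p q : M F) (hp : p ∉ S) (hq : q ∉ S) :
    ∃ K : Set (M F), IsClosed K ∧ IsConnected K ∧ p ∈ K ∧ q ∈ K ∧ Disjoint K S := by
  have hR : ((r F) '' S).Finite := hS.image _
  have step : ∀ p : M F, p ∉ S → ∃ K : Set (M F), IsClosed K ∧ IsPreconnected K ∧ p ∈ K ∧
      Disjoint K S ∧ ∃ p' ∈ K, r F p' ∉ (r F) '' S := by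
    intro p hp
    by_cases h : r F p ∈ (r F) '' S
    · have hO : ((r F) '' S \ {r F p})ᶜ ∈ 𝓝 (r F p) := by
        apply (hR.subset diff_subset).isClosed.isOpen_compl.mem_nhds
        intro h1
        exact h1.2 rfl
      obtain ⟨L, hLc, hLO, hxL, hLp, hxcl, hLf⟩ := H2s (r F p) (g F (r F p) p) hO
      set x := r F p with hx
      set y := g F x p with hy
      set T : Set (M F) := (r F) ⁻¹' (L \ {x}) with hT
      have hTpre : IsPreconnected T := isPreconnected_preimage F continuousAt_F hLp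
      have hKeq : ((r F) ⁻¹' L ∩ (g F x) ⁻¹' {y}) = insert p T := by
        ext m'
        constructor
        · rintro ⟨h1, h2⟩
          by_cases h3 : r F m' = x
          · left
            apply ext_M
            · exact h3
            · rw [h3]
              exact h2
          · right
            exact ⟨h1, h3⟩
        · rintro (h1 | h1)
          · subst h1
            exact ⟨hxL, rfl⟩
          · refine ⟨h1.1, ?_⟩
            have h3 : r F m' ≠ x := h1.2
            change g F x m' = y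
            rw [g_eq F h3]
            exact hLf _ h1
      have hpcl : p ∈ closure T := by
        rw [mem_closure_iff_nhds]
        intro V hV
        obtain ⟨O, hO, W, hW, hOW⟩ := nhds_M F continuousAt_F p hV
        rw [mem_closure_iff_nhds] at hxcl
        obtain ⟨b, hbO, hbL⟩ := hxcl O hO
        refine ⟨e F b 1, ?_, ?_⟩
        · apply hOW
          · exact hbO
          · have hbx : r F (e F b 1) ≠ r F p := hbL.2
            rw [g_eq F hbx]
            have : F (r F p) (r F (e F b 1)) = y := hLf b hbL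
            rw [this]
            exact mem_of_mem_nhds hW
        · exact hbL
      refine ⟨(r F) ⁻¹' L ∩ (g F x) ⁻¹' {y}, ?_, ?_, ⟨hxL, rfl⟩, ?_, ?_⟩
      · exact (hLc.preimage (continuous_r F)).inter (isClosed_singleton.preimage (continuous_g F x))
      · rw [hKeq]
        exact hTpre.subset_closure (subset_insert _ _)
          (insert_subset hpcl subset_closure)
      · rw [hKeq, Set.disjoint_left]
        rintro m' (h1 | h1) hm'
        · rw [h1] at hm'
          exact hp hm'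
        · exact hLO h1.1 ⟨⟨m', hm', rfl⟩, h1.2⟩
      · have hne : (L \ {x}).Nonempty := by
          rw [← closure_nonempty_iff]
          exact ⟨x, hxcl⟩
        obtain ⟨b, hb⟩ := hne
        refine ⟨e F b y, ?_, ?_⟩
        · rw [hKeq]
          right
          exact hb
        · rw [r_e]
          intro h4
          exact hLO hb.1 ⟨h4, hb.2⟩
    · refine ⟨{p}, isClosed_singleton, isPreconnected_singleton, rfl, ?_, p, rfl, h⟩
      rw [Set.disjoint_left]
      intro a ha
      rw [mem_singleton_iff] at ha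
      rw [ha]
      exact hp
  obtain ⟨K1, hK1c, hK1p, hpK, hmK1, p', hp', hrp'⟩ := step p hp
  obtain ⟨K2, hK2c, hK2p, hqK, hmK2, q', hq', hrq'⟩ := step q hq
  obtain ⟨K0, hK0c, hK0p, hp0, hq0, ha0⟩ := cube_conn _ hR.countable (r F p') (r F q') hrp' hrq'
  have hK0' : IsPreconnected ((r F) ⁻¹' K0) := isPreconnected_preimage F continuousAt_F hK0p
  refine ⟨K1 ∪ (r F) ⁻¹' K0 ∪ K2, ?_, ⟨⟨p, Or.inl (Or.inl hpK)⟩, ?_⟩, Or.inl (Or.inl hpK),
    Or.inr hqK, ?_⟩
  · exact (hK1c.union (hK0c.preimage (continuous_r F))).union hK2c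
  · have h12 : IsPreconnected (K1 ∪ (r F) ⁻¹' K0) :=
      IsPreconnected.union p' hp' hp0 hK1p hK0'
    exact IsPreconnected.union q' (Or.inr hq0) hq' h12 hK2p
  · rw [Set.disjoint_left] at hmK1 hmK2 ha0 ⊢
    rintro m' ((h | h) | h)
    · exact hmK1 h
    · exact fun hm' => ha0 h ⟨m', hm', rfl⟩
    · exact hmK2 h

end Pool.Agent.Helper57.Res
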